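import Pool.Agent.helper68.FY.Spec
import Pool.Agent.helper9.Tors.Divs

-- Row fy:FN1 of MP_f6e9a2_nt: the numerics of case I.

set_option autoImplicit false

namespace Pool.Agent.helper68.FY

open Finset

theorem FN1_ev (c a : ℝ) (ha : 0 < a) : ∃ N : ℕ, ∀ p : ℕ, N < p → c ≤ (p : ℝ) ^ a := by
  have h1 : Filter.Tendsto (fun p : ℕ => (p : ℝ) ^ a) Filter.atTop Filter.atTop :=
    (tendsto_rpow_atTop ha).comp tendsto_natCast_atTop_atTop
  obtain ⟨N, hN⟩ := Filter.eventually_atTop.1 (h1.eventually_ge_atTop c)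
  exact ⟨N, fun p hp => hN p hp.le⟩

-- the algebra of the main term
theorem FN1_phi (K C₁ C₂ C₃ t r q M L s D lg : ℝ) (hK : 0 ≤ K) (hC₁ : 0 ≤ C₁) (_hC₂ : 0 ≤ C₂)
    (hC₃ : 0 ≤ C₃) (ht : 0 < t) (hr : 0 < r) (hq : 0 < q) (hM : 0 < M)
    (hL : q / (2 * t ^ 2) ≤ L) (hs : s = 5 * C₁ * t * M ^ 2) (hD0 : 0 ≤ D) (hD : D ≤ C₂ * t)
    (hl0 : 0 ≤ lg) (hlg : lg ≤ C₃ * t) (hqM : r * t ^ 10 ≤ q ^ 2 * M) :
    K * D ^ 2 * lg * s * r ^ 2 / (q * L ^ 3 * M ^ 4) ≤ 40 * K * C₁ * C₂ ^ 2 * C₃ / t ^ 10 := by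
  have hL0 : 0 < q / (2 * t ^ 2) := by positivity
  have hLp : 0 < L := lt_of_lt_of_le hL0 hL
  have hs0 : 0 ≤ s := by rw [hs]; positivity
  have h1 : K * D ^ 2 * lg * s * r ^ 2 ≤ K * (C₂ * t) ^ 2 * (C₃ * t) * s * r ^ 2 := by
    gcongr
  have h2 : q * (q / (2 * t ^ 2)) ^ 3 * M ^ 4 ≤ q * L ^ 3 * M ^ 4 := by
    gcongr
  have h3 : K * D ^ 2 * lg * s * r ^ 2 / (q * L ^ 3 * M ^ 4) ≤
      K * (C₂ * t) ^ 2 * (C₃ * t) * s * r ^ 2 / (q * (q / (2 * t ^ 2)) ^ 3 * M ^ 4) := by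
    gcongr
  refine h3.trans ?_
  have h4 : K * (C₂ * t) ^ 2 * (C₃ * t) * s * r ^ 2 / (q * (q / (2 * t ^ 2)) ^ 3 * M ^ 4) =
      40 * K * C₁ * C₂ ^ 2 * C₃ * t ^ 10 * r ^ 2 / (q ^ 2 * M) ^ 2 := by
    rw [hs]
    field_simp
    ring
  rw [h4]
  have h5 : (r * t ^ 10) ^ 2 ≤ (q ^ 2 * M) ^ 2 := by gcongr
  have h6 : 40 * K * C₁ * C₂ ^ 2 * C₃ * t ^ 10 * r ^ 2 / (q ^ 2 * M) ^ 2 ≤
      40 * K * C₁ * C₂ ^ 2 * C₃ * t ^ 10 * r ^ 2 / (r * t ^ 10) ^ 2 := by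
    gcongr
  refine h6.trans (le_of_eq ?_)
  field_simp

set_option maxHeartbeats 4000000 in
theorem FN1 (hEN : EN_stmt) (hFNC : FNC_stmt) : FN1_stmt := by
  intro θ hθ
  obtain ⟨C₁, hC₁, hen⟩ := hEN (θ / 10) (by positivity)
  obtain ⟨C₂, hC₂, hdiv⟩ := Pool.Agent.helper9.Tors.divisor_bound (θ / 10) (by positivity)
  set k : ℕ := ⌈30 / θ⌉₊ with hk
  have hk30 : 30 / θ ≤ (k : ℝ) := Nat.le_ceil _
  have hkpos : 0 < (k : ℝ) := lt_of_lt_of_le (by positivity) hk30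
  have hk1 : 1 ≤ k := by exact_mod_cast hkpos
  have hkθ : 30 ≤ θ * k := by
    rw [div_le_iff₀ hθ] at hk30
    linarith
  set K : ℝ := (k : ℝ) ^ (2 * k) + 4 * (k : ℝ) ^ 2 with hK
  have hK0 : 0 ≤ K := by rw [hK]; positivity
  set C₂' : ℝ := C₂ * 4 ^ (θ / 10) with hC₂'
  set C₃ : ℝ := 1 + 20 / θ with hC₃
  have hC₂'0 : 0 ≤ C₂' := by rw [hC₂']; positivity
  have hC₃0 : 0 ≤ C₃ := by rw [hC₃]; positivity
  set γ : ℝ := min θ (min (1 / 8) (θ / (4 * k))) with hγ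
  have hγ0 : 0 < γ := by
    rw [hγ]
    refine lt_min hθ (lt_min (by norm_num) (by positivity))
  have hγ1 : γ ≤ θ := min_le_left _ _
  have hγ2 : γ ≤ 1 / 8 := (min_le_right _ _).trans (min_le_left _ _)
  have hγ3 : γ ≤ θ / (4 * k) := (min_le_right _ _).trans (min_le_right _ _)
  obtain ⟨N₁, hN₁⟩ := FN1_ev 2 (θ / 20) (by positivity)
  obtain ⟨N₂, hN₂⟩ := FN1_ev (40 * K * C₁ * C₂' ^ 2 * C₃) (θ / 2) (by positivity)
  obtain ⟨N₃, hN₃⟩ := FN1_ev 126 (γ / 2) (by positivity)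
  refine ⟨max N₁ (max N₂ N₃), γ / 4, by positivity, ?_⟩
  intro p _ hp χ hχ B β hβ Q hQ4 hQ2 hB hQB
  have hp1 : N₁ < p := lt_of_le_of_lt (le_max_left _ _) hp
  have hp2 : N₂ < p := lt_of_le_of_lt ((le_max_left _ _).trans (le_max_right _ _)) hp
  have hp3 : N₃ < p := lt_of_le_of_lt ((le_max_right _ _).trans (le_max_right _ _)) hp
  set P : ℝ := (p : ℝ) with hP
  have hpr : p.Prime := Fact.out
  have hP1 : 1 ≤ P := by rw [hP]; exact_mod_cast hpr.one_lt.le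
  have hP0 : 0 < P := by linarith
  set t : ℝ := P ^ (θ / 10) with ht
  set u : ℝ := P ^ (θ / 20) with hu
  set r : ℝ := P ^ (1 / 2 : ℝ) with hr
  have hr0 : 0 < r := by rw [hr]; positivity
  have hr1 : 1 ≤ r := by rw [hr]; exact Real.one_le_rpow hP1 (by norm_num)
  have hrr : r ^ 2 = P := by
    rw [hr, ← Real.rpow_natCast, ← Real.rpow_mul hP0.le]
    norm_num
  have hut : u ^ 2 = t := by
    rw [hu, ht, ← Real.rpow_natCast, ← Real.rpow_mul hP0.le]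
    congr 1
    push_cast
    ring
  have hu2 : 2 ≤ u := hN₁ p hp1
  have ht4 : 4 ≤ t := by
    rw [← hut]
    have h1 : (2 : ℝ) ^ 2 ≤ u ^ 2 := pow_le_pow_left₀ (by norm_num) hu2 2
    linarith [show (2 : ℝ) ^ 2 = 4 by norm_num]
  have ht0 : 0 < t := by linarith
  have htn : ∀ n : ℕ, P ^ (θ / 10 * n) = t ^ n := by
    intro n
    rw [ht, ← Real.rpow_natCast, ← Real.rpow_mul hP0.le]
  have ht10 : P ^ θ = t ^ 10 := by
    rw [← htn 10]
    congr 1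
    push_cast
    ring
  have ht5 : P ^ (θ / 2) = t ^ 5 := by
    rw [← htn 5]
    congr 1
    push_cast
    ring
  set q : ℝ := (Q : ℝ) with hq
  set M : ℝ := (B.card : ℝ) with hM
  have hM0' : 0 ≤ M := by rw [hM]; positivity
  have hq0' : 0 ≤ q := by rw [hq]; positivity
  have hqM : r * t ^ 10 ≤ q ^ 2 * M := by
    rw [← ht10, hr, ← Real.rpow_add hP0]
    exact hQB
  have hqM0 : 0 < q ^ 2 * M := lt_of_lt_of_le (by positivity) hqM
  have hM0 : 0 < M := by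
    rcases hM0'.lt_or_eq with h | h
    · exact h
    · rw [← h, mul_zero] at hqM0; exact absurd hqM0 (lt_irrefl _)
  have hq0 : 0 < q := by
    rcases hq0'.lt_or_eq with h | h
    · exact h
    · rw [← h] at hqM0; norm_num at hqM0
  have hB1 : 1 ≤ B.card := by
    have h1 : (0 : ℝ) < (B.card : ℝ) := hM0
    exact_mod_cast h1
  have hq4 : q ^ 4 ≤ P := by rw [hq, hP]; exact_mod_cast hQ4
  have hq2r : q ^ 2 ≤ r := by
    have h1 : (q ^ 2) ^ 2 ≤ r ^ 2 := by rw [hrr]; calc (q ^ 2) ^ 2 = q ^ 4 := by ring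
      _ ≤ P := hq4
    exact (pow_le_pow_iff_left₀ (by positivity) hr0.le (by norm_num)).1 h1
  -- the lower bound of q
  have hq8 : P ^ (1 / 8 : ℝ) * t ^ 5 ≤ q := by
    have h1 : (P ^ (1 / 8 : ℝ) * t ^ 5) ^ 2 ≤ q ^ 2 := by
      refine le_trans (le_of_eq ?_) hQ2
      rw [← ht5, ← Real.rpow_add hP0, ← Real.rpow_natCast, ← Real.rpow_mul hP0.le]
      congr 1
      push_cast
      ring
    exact (pow_le_pow_iff_left₀ (by positivity) hq0.le (by norm_num)).1 h1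
  have h81 : 1 ≤ P ^ (1 / 8 : ℝ) := Real.one_le_rpow hP1 (by norm_num)
  have h2t : 2 * t ^ 2 ≤ t ^ 5 := by
    have h5 : (4 : ℝ) ^ 3 ≤ t ^ 3 := pow_le_pow_left₀ (by norm_num) ht4 3
    have h6 : (2 : ℝ) ≤ t ^ 3 := by linarith [show (4 : ℝ) ^ 3 = 64 by norm_num]
    calc 2 * t ^ 2 ≤ t ^ 3 * t ^ 2 := mul_le_mul_of_nonneg_right h6 (by positivity)
      _ = t ^ 5 := by ring
  have hqt : 2 * t ^ 2 ≤ q := by
    have h1 : t ^ 5 ≤ q := by
      refine le_trans ?_ hq8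
      have : 0 ≤ t ^ 5 := by positivity
      exact le_mul_of_one_le_left this h81
    have h2 := h2t
    linarith
  -- the parameters
  set W : ℕ := ⌊t⌋₊ with hW
  have hWt : (W : ℝ) ≤ t := Nat.floor_le ht0.le
  have hWu : u ≤ (W : ℝ) := by
    have h1 : t < (W : ℝ) + 1 := Nat.lt_floor_add_one t
    have h2 : 2 * u ≤ u * u := mul_le_mul_of_nonneg_right hu2 (by linarith)
    have h3 : u * u = t := by rw [← hut]; ring
    linarith
  have hW1 : 1 ≤ W := by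
    have : (1 : ℝ) ≤ W := by linarith
    exact_mod_cast this
  have hWk : p ≤ W ^ k := by
    have h1 : P ≤ (W : ℝ) ^ k := by
      calc P = P ^ (1 : ℝ) := (Real.rpow_one P).symm
        _ ≤ P ^ (θ / 20 * k) := Real.rpow_le_rpow_of_exponent_le hP1 (by linarith)
        _ = u ^ k := by rw [hu, ← Real.rpow_natCast, ← Real.rpow_mul hP0.le]
        _ ≤ (W : ℝ) ^ k := pow_le_pow_left₀ (by linarith) hWu k
    rw [hP] at h1
    exact_mod_cast h1
  set L : ℕ := ⌊q / t ^ 2⌋₊ with hL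
  have hqt2 : 2 ≤ q / t ^ 2 := by
    rw [le_div_iff₀ (by positivity)]
    exact hqt
  have hLle : (L : ℝ) ≤ q / t ^ 2 := Nat.floor_le (by positivity)
  have hLge : q / (2 * t ^ 2) ≤ (L : ℝ) := by
    have h1 : q / t ^ 2 < (L : ℝ) + 1 := Nat.lt_floor_add_one _
    have h2 : q / (2 * t ^ 2) = (q / t ^ 2) / 2 := by
      field_simp
    rw [h2]
    linarith
  have hL1r : (1 : ℝ) ≤ L := by
    have h2 : q / (2 * t ^ 2) = (q / t ^ 2) / 2 := by
      field_simp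
    rw [h2] at hLge
    linarith
  have hL1 : 1 ≤ L := by exact_mod_cast hL1r
  have hLW : L * W ≤ Q := by
    have h1 : (L : ℝ) * W ≤ q := by
      calc (L : ℝ) * W ≤ q / t ^ 2 * t := by gcongr
        _ = q / t := by field_simp
        _ ≤ q / 1 := by gcongr; linarith
        _ = q := div_one q
    rw [hq] at h1
    exact_mod_cast h1
  have hQLr : 2 * q * (L : ℝ) ≤ 2 * r / t ^ 2 := by
    calc 2 * q * (L : ℝ) ≤ 2 * q * (q / t ^ 2) := by gcongr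
      _ = 2 * q ^ 2 / t ^ 2 := by ring
      _ ≤ 2 * r / t ^ 2 := by gcongr
  have hrt : 2 * r / t ^ 2 < P := by
    rw [div_lt_iff₀ (by positivity), ← hrr]
    have h1 : (4 : ℝ) ^ 2 ≤ t ^ 2 := pow_le_pow_left₀ (by norm_num) ht4 2
    have h2 : r ≤ r ^ 2 := by
      calc r = r * 1 := (mul_one r).symm
        _ ≤ r * r := mul_le_mul_of_nonneg_left hr1 hr0.le
        _ = r ^ 2 := by ring
    calc 2 * r < 4 ^ 2 * r := by linarith
      _ ≤ t ^ 2 * r := mul_le_mul_of_nonneg_right h1 hr0.le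
      _ ≤ t ^ 2 * r ^ 2 := mul_le_mul_of_nonneg_left h2 (by positivity)
      _ = r ^ 2 * t ^ 2 := by ring
  have hQL : 2 * Q * L < p := by
    have h1 : 2 * q * (L : ℝ) < P := lt_of_le_of_lt hQLr hrt
    rw [hq, hP] at h1
    exact_mod_cast h1
  -- the divisor bound
  set D : ℕ := ⌊C₂' * t⌋₊ with hD
  have hDle : (D : ℝ) ≤ C₂' * t := Nat.floor_le (by positivity)
  have hDdiv : ∀ n : ℕ, 1 ≤ n → n ≤ 4 * Q ^ 4 → n.divisors.card ≤ D := by
    intro n hn1 hn2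
    refine Nat.le_floor ?_
    refine (hdiv n (by omega)).trans ?_
    have h1 : (n : ℝ) ≤ 4 * P := by
      have h2 : (n : ℝ) ≤ 4 * q ^ 4 := by rw [hq]; exact_mod_cast hn2
      linarith
    calc C₂ * (n : ℝ) ^ (θ / 10) ≤ C₂ * (4 * P) ^ (θ / 10) := by gcongr
      _ = C₂' * t := by
        rw [Real.mul_rpow (by norm_num) hP0.le, hC₂', ht]
        ring
  -- the energy bound
  set s : ℝ := 5 * C₁ * t * M ^ 2 with hs
  have hcnt : ∀ G : ℕ, 1 ≤ G → G ≤ 2 * Q * L → (cnt B.offDiag (rp p) G : ℝ) ≤ s * (G : ℝ) ^ 2 := by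
    intro G hG1 hG2
    have hGr : (G : ℝ) ≤ 2 * r / t ^ 2 := by
      refine le_trans ?_ hQLr
      rw [hq]
      exact_mod_cast hG2
    have h7 : 7 * G ^ 2 < p := by
      have h1 : 7 * (G : ℝ) ^ 2 < P := by
        have h2 : (G : ℝ) ^ 2 ≤ (2 * r / t ^ 2) ^ 2 := by gcongr
        have h3 : 7 * (2 * r / t ^ 2) ^ 2 = 28 * r ^ 2 / t ^ 4 := by ring
        have h4 : 28 * r ^ 2 / t ^ 4 < r ^ 2 := by
          rw [div_lt_iff₀ (by positivity)]
          have h5 : (28 : ℝ) < t ^ 4 := by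
            have h6 : (4 : ℝ) ^ 4 ≤ t ^ 4 := by gcongr
            linarith [show (4 : ℝ) ^ 4 = 256 by norm_num]
          calc 28 * r ^ 2 < t ^ 4 * r ^ 2 := mul_lt_mul_of_pos_right h5 (by positivity)
            _ = r ^ 2 * t ^ 4 := by ring
        rw [← hrr]
        linarith
      rw [hP] at h1
      exact_mod_cast h1
    have h1 := ((hen p G B hG1).1 h7)
    have h2 : M ^ 2 ≤ 4 * r := by
      have h3 : M ^ 2 ≤ (2 * P ^ (1 / 4 : ℝ)) ^ 2 := by gcongr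
      have h4 : (2 * P ^ (1 / 4 : ℝ)) ^ 2 = 4 * r := by
        rw [mul_pow, hr, ← Real.rpow_natCast (P ^ (1 / 4 : ℝ)), ← Real.rpow_mul hP0.le]
        norm_num
      linarith
    have h5 : 1 + M ^ 2 / r ≤ 5 := by
      have : M ^ 2 / r ≤ 4 := by
        rw [div_le_iff₀ hr0]
        exact h2
      linarith
    refine h1.trans ?_
    calc C₁ * t * (1 + M ^ 2 / r) * (G : ℝ) ^ 2 * M ^ 2 ≤ C₁ * t * 5 * (G : ℝ) ^ 2 * M ^ 2 := by
          gcongr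
      _ = s * (G : ℝ) ^ 2 := by rw [hs]; ring
  -- the logarithm
  set lg : ℝ := 1 + (Nat.log 2 (2 * Q * L) : ℝ) with hlg
  have hlg0 : 0 ≤ lg := by rw [hlg]; positivity
  have hlgle : lg ≤ C₃ * t := by
    have h1 : Nat.log 2 (2 * Q * L) ≤ Nat.log 2 p := Nat.log_mono_right hQL.le
    have h2 : (2 : ℝ) ^ (Nat.log 2 p) ≤ P := by
      rw [hP]
      exact_mod_cast Nat.pow_log_le_self 2 hpr.ne_zero
    have h3 : (Nat.log 2 p : ℝ) * Real.log 2 ≤ Real.log P := by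
      rw [← Real.log_pow]
      exact Real.log_le_log (by positivity) h2
    have h4 : Real.log P ≤ t / (θ / 10) := by
      rw [ht]
      exact Real.log_le_rpow_div hP0.le (by positivity)
    have h5 : (1 / 2 : ℝ) ≤ Real.log 2 := by linarith [Real.log_two_gt_d9]
    have h6 : (Nat.log 2 p : ℝ) * (1 / 2) ≤ t / (θ / 10) := by
      have h7 : (Nat.log 2 p : ℝ) * (1 / 2) ≤ (Nat.log 2 p : ℝ) * Real.log 2 := by gcongr
      linarith
    have h8 : (Nat.log 2 (2 * Q * L) : ℝ) ≤ (Nat.log 2 p : ℝ) := by exact_mod_cast h1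
    have h9 : t / (θ / 10) = 10 / θ * t := by field_simp
    rw [h9] at h6
    have h10 : (20 / θ : ℝ) * t = 2 * (10 / θ * t) := by ring
    rw [hlg, hC₃, add_mul, one_mul, h10]
    linarith
  -- the core inequality
  have hcore := hFNC p χ hχ B β hβ Q L W k D s hL1 hW1 hk1 hLW hQL hWk hB1 hDdiv hcnt
  have hphi := FN1_phi K C₁ C₂' C₃ t r q M L s D lg hK0 (by linarith) hC₂'0 hC₃0 ht0 hr0 hq0 hM0
    hLge hs (by positivity) hDle hlg0 hlgle hqM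
  rw [hrr] at hphi
  have hphi2 : K * (D : ℝ) ^ 2 * lg * s * P / (q * (L : ℝ) ^ 3 * M ^ 4) ≤ P ^ (-(θ / 2)) := by
    refine hphi.trans ?_
    rw [Real.rpow_neg hP0.le, ht5, ← one_div, div_le_div_iff₀ (by positivity) (by positivity)]
    have h1 := hN₂ p hp2
    rw [← hP, ht5] at h1
    calc 40 * K * C₁ * C₂' ^ 2 * C₃ * t ^ 5 ≤ t ^ 5 * t ^ 5 := by gcongr
      _ = 1 * t ^ 10 := by ring
  have hphi0 : 0 ≤ K * (D : ℝ) ^ 2 * lg * s * P / (q * (L : ℝ) ^ 3 * M ^ 4) := by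
    have hs0 : 0 ≤ s := by rw [hs]; positivity
    positivity
  have hpow : (K * (D : ℝ) ^ 2 * lg * s * P / (q * (L : ℝ) ^ 3 * M ^ 4)) ^ (1 / (2 * (k : ℝ))) ≤
      P ^ (-γ) := by
    refine (Real.rpow_le_rpow hphi0 hphi2 (by positivity)).trans ?_
    rw [← Real.rpow_mul hP0.le]
    refine Real.rpow_le_rpow_of_exponent_le hP1 ?_
    have h1 : -(θ / 2) * (1 / (2 * (k : ℝ))) = -(θ / (4 * k)) := by
      field_simp
      ring
    rw [h1]
    linarith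
  -- the other terms
  have hMθ : 1 / M ≤ P ^ (-γ) := by
    have h1 : t ^ 10 ≤ M := by
      have h2 : r * t ^ 10 ≤ r * M := by
        refine hqM.trans ?_
        gcongr
      exact le_of_mul_le_mul_left h2 hr0
    rw [← ht10] at h1
    calc 1 / M ≤ 1 / P ^ θ := by gcongr
      _ = P ^ (-θ) := by rw [Real.rpow_neg hP0.le, one_div]
      _ ≤ P ^ (-γ) := Real.rpow_le_rpow_of_exponent_le hP1 (by linarith)
  have hLγ : 1 / (L : ℝ) ≤ P ^ (-γ) := by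
    have h1 : P ^ (1 / 8 : ℝ) ≤ L := by
      refine le_trans ?_ hLge
      rw [le_div_iff₀ (by positivity)]
      refine le_trans ?_ hq8
      gcongr
    calc 1 / (L : ℝ) ≤ 1 / P ^ (1 / 8 : ℝ) := by gcongr
      _ = P ^ (-(1 / 8 : ℝ)) := by rw [Real.rpow_neg hP0.le, one_div]
      _ ≤ P ^ (-γ) := Real.rpow_le_rpow_of_exponent_le hP1 (by linarith)
  have hPγ0 : 0 < P ^ (-γ) := by positivity
  have hS : S1 p χ B β Q ^ 2 ≤ (P ^ (-(γ / 4)) * q ^ 2 * M) ^ 2 := by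
    refine hcore.trans ?_
    have e1 : 9 * q ^ 4 * (M + 4 * M ^ 2 / (L : ℝ)) =
        q ^ 4 * M ^ 2 * (9 * (1 / M) + 36 * (1 / (L : ℝ))) := by
      have hL0 : (L : ℝ) ≠ 0 := by positivity
      field_simp
      ring
    have e2 : (P ^ (-(γ / 4)) * q ^ 2 * M) ^ 2 = q ^ 4 * M ^ 2 * P ^ (-(γ / 2)) := by
      have : P ^ (-(γ / 2)) = (P ^ (-(γ / 4))) ^ 2 := by
        rw [← Real.rpow_natCast, ← Real.rpow_mul hP0.le]
        congr 1
        push_cast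
        ring
      rw [this]
      ring
    have e3 : 126 * P ^ (-γ) ≤ P ^ (-(γ / 2)) := by
      have h1 := hN₃ p hp3
      rw [← hP] at h1
      have h2 : P ^ (-(γ / 2)) = P ^ (γ / 2) * P ^ (-γ) := by
        rw [← Real.rpow_add hP0]
        congr 1
        ring
      rw [h2]
      gcongr
    rw [e2]
    have e4 : 9 * q ^ 4 * (M + 4 * M ^ 2 / (L : ℝ)) + 81 * q ^ 4 * M ^ 2 *
        (K * (D : ℝ) ^ 2 * lg * s * P / (q * (L : ℝ) ^ 3 * M ^ 4)) ^ (1 / (2 * (k : ℝ))) ≤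
        q ^ 4 * M ^ 2 * (126 * P ^ (-γ)) := by
      rw [e1]
      have h0 : 0 ≤ q ^ 4 * M ^ 2 := by positivity
      have h1 : q ^ 4 * M ^ 2 * (9 * (1 / M) + 36 * (1 / (L : ℝ))) ≤
          q ^ 4 * M ^ 2 * (9 * P ^ (-γ) + 36 * P ^ (-γ)) := by gcongr
      have h2 : 81 * q ^ 4 * M ^ 2 *
          (K * (D : ℝ) ^ 2 * lg * s * P / (q * (L : ℝ) ^ 3 * M ^ 4)) ^ (1 / (2 * (k : ℝ))) ≤
          81 * q ^ 4 * M ^ 2 * P ^ (-γ) := by gcongr
      calc _ ≤ q ^ 4 * M ^ 2 * (9 * P ^ (-γ) + 36 * P ^ (-γ)) + 81 * q ^ 4 * M ^ 2 * P ^ (-γ) :=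
            add_le_add h1 h2
        _ = q ^ 4 * M ^ 2 * (126 * P ^ (-γ)) := by ring
    refine e4.trans ?_
    gcongr
  have hS0 : 0 ≤ S1 p χ B β Q := by
    unfold S1
    positivity
  exact (pow_le_pow_iff_left₀ hS0 (by positivity) (by norm_num)).1 hS

end Pool.Agent.helper68.FY
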